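import Pool.Agent.helper23.CS.Spec

/-!
# cs:GC (MP_7c3fb3_pr): the magnetisation with plus boundary condition is a two point function with the ghost
-/

open Finset

namespace CS

open CU

theorem GC_sg_not (b : Bool) : CU.sg (!b) = - CU.sg b := by cases b <;> simp [CU.sg]

/-- sum over the configurations on `Option α` of a flip invariant function -/
theorem GC_sum {α : Type} [Fintype α] [DecidableEq α] (F : (Option α → Bool) → ℝ)
    (hF : ∀ σ, F (fun x => !σ x) = F σ) :
    ∑ σ : Option α → Bool, F σ = 2 * ∑ η : α → Bool, F (fun o => o.elim true η) := by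
  have h1 : ∑ σ : Option α → Bool, F σ =
      ∑ p : Bool × (α → Bool), F (fun o => o.elim p.1 p.2) := by
    refine Fintype.sum_equiv (Equiv.piOptionEquivProd (β := fun _ : Option α => Bool)) _ _ ?_
    intro σ
    congr 1
    funext o
    cases o with
    | none => rfl
    | some a => rfl
  rw [h1, Fintype.sum_prod_type, Fintype.sum_bool]
  have h2 : ∑ η : α → Bool, F (fun o => o.elim false η) = ∑ η : α → Bool, F (fun o => o.elim true η) := by
    refine Fintype.sum_equiv (Equiv.arrowCongr (Equiv.refl α) Equiv.boolNot) _ _ ?_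
    intro η
    rw [← hF]
    congr 1
    funext o
    cases o with
    | none => rfl
    | some a => rfl
  show ∑ η : α → Bool, F (fun o => o.elim true η) + ∑ η : α → Bool, F (fun o => o.elim false η) = _
  rw [h2]
  ring

theorem GC_glue {d : ℕ} (Λ : Finset (ZSite d)) (η : {x // x ∈ Λ} → Bool) (x : ZSite d) :
    glue Λ η (fun _ => true) x = (cl Λ x).elim true η := by
  unfold glue cl
  by_cases hx : x ∈ Λ
  · rw [dif_pos hx, dif_pos hx]
    rfl
  · rw [dif_neg hx, dif_neg hx]
    rfl

theorem GC_zwt {d : ℕ} (b : ℝ) (Λ : Finset (ZSite d)) (η : {x // x ∈ Λ} → Bool) :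
    zwt b 0 Λ (glue Λ η (fun _ => true)) =
      Real.exp (b * ∑ e : {e // e ∈ tE Λ}, mm (zG Λ) e (fun o => o.elim true η)) := by
  unfold zwt
  rw [zero_mul, add_zero]
  congr 2
  rw [← Finset.sum_coe_sort]
  refine Finset.sum_congr rfl fun e _ => ?_
  unfold mm zG
  rw [GC_glue, GC_glue]

theorem GC_mm_flip {V ι : Type} (G : MG V ι) (e : ι) (σ : V → Bool) :
    mm G e (fun x => !σ x) = mm G e σ := by
  unfold mm
  rw [GC_sg_not, GC_sg_not, neg_mul_neg]

theorem GC : GC_stmt := by
  intro d b Λ x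
  unfold gam cor mf Zf
  have hden := GC_sum (fun σ : Option {x // x ∈ Λ} → Bool =>
    Real.exp (b * ∑ e : {e // e ∈ tE Λ}, mm (zG Λ) e σ) * 1) (fun σ => by
      simp only [GC_mm_flip])
  have hnum := GC_sum (fun σ : Option {x // x ∈ Λ} → Bool =>
    Real.exp (b * ∑ e : {e // e ∈ tE Λ}, mm (zG Λ) e σ) *
      (CU.sg (σ (cl Λ x)) * CU.sg (σ none))) (fun σ => by
      simp only [GC_mm_flip, GC_sg_not, neg_mul_neg])
  rw [hden, hnum, mul_div_mul_left _ _ (by norm_num : (2 : ℝ) ≠ 0)]
  congr 1
  · refine Finset.sum_congr rfl fun η _ => ?_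
    rw [GC_zwt]
    show Real.exp (b * ∑ e : {e // e ∈ tE Λ}, mm (zG Λ) e (fun o => o.elim true η)) *
      CU.sg (glue Λ η (fun _ => true) x) = Real.exp (b * ∑ e : {e // e ∈ tE Λ},
        mm (zG Λ) e (fun o => o.elim true η)) * (CU.sg ((cl Λ x).elim true η) * CU.sg true)
    have h1 : CU.sg true = 1 := by simp [CU.sg]
    rw [GC_glue, h1, mul_one]
  · refine Finset.sum_congr rfl fun η _ => ?_
    rw [GC_zwt, mul_one]

end CS
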