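import Pool.Agent.helper23.CS.Spec

/-!
# cs:SHARP (MP_7c3fb3_pr): sharpness of the phase transition at zero field, assembly
-/

open Finset

namespace CS

open CU

theorem SHARP_box {d : ℕ} (S : Finset (ZSite d)) : ∃ n : ℕ, S ⊆ zBox n (0 : ZSite d) := by
  refine ⟨∑ x ∈ S, ∑ k, (x k).natAbs, ?_⟩
  intro x hx
  unfold zBox
  rw [Fintype.mem_piFinset]
  intro k
  have h1 : (x k).natAbs ≤ ∑ x ∈ S, ∑ k, (x k).natAbs :=
    (Finset.single_le_sum (f := fun k => (x k).natAbs) (fun _ _ => Nat.zero_le _) (mem_univ k)).trans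
      (Finset.single_le_sum (f := fun x : ZSite d => ∑ k, (x k).natAbs) (fun _ _ => Nat.zero_le _) hx)
  rw [Finset.mem_Icc]
  simp only [Pi.zero_apply]
  omega

theorem SHARP (hCRIT : CRIT_stmt) (hDEC : DEC_stmt) (hEXPO : EXPO_stmt) (hGUN : GUN_stmt) :
    SHARP_stmt := by
  intro d β β' hβ hlt hU
  by_cases h : ∃ S : Finset (ZSite d), (0 : ZSite d) ∈ S ∧ psz β S < 1 / 2
  · obtain ⟨S, h0, hS⟩ := h
    obtain ⟨n, hn⟩ := SHARP_box S
    have ht0 : 0 ≤ Real.tanh β := by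
      rw [Real.tanh_eq_sinh_div_cosh]
      exact div_nonneg (Real.sinh_nonneg_iff.2 hβ) (Real.cosh_pos β).le
    have ht1 : Real.tanh β ≤ 1 := (Real.tanh_lt_one β).le
    have h1 : Real.tanh β * psz β S ≤ 1 / 2 := by
      rcases le_or_gt 0 (psz β S) with h2 | h2
      · nlinarith
      · nlinarith
    exact hEXPO d β n hβ (hDEC d β n S hβ h0 hn h1)
  · exfalso
    have h' : ∀ S : Finset (ZSite d), (0 : ZSite d) ∈ S → 1 / 2 ≤ psz β S := by
      intro S hS
      by_contra hc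
      exact h ⟨S, hS, not_le.1 hc⟩
    have h1 := hCRIT d β β' hβ hlt h'
    refine hGUN d β' (min (1 / 2) ((β' - β) / 4)) (lt_min (by norm_num) (by linarith)) h1 hU

end CS
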